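import Mathlib

set_option autoImplicit false

namespace Pool.Agent.MP_1d6438_gt

/-- The distance set of a metric space. -/
def distSet (X : Type) [MetricSpace X] : Set ℝ :=
  {r : ℝ | ∃ x x' : X, dist x x' = r}

/-- The Gromov-Hausdorff distance, with values in `[0, ∞]`: the infimum, over all metric spaces `Z`
and all isometric embeddings of `X` and of `Y` into `Z`, of the Hausdorff distance of the images. -/
noncomputable def ghEDist (X Y : Type) [MetricSpace X] [MetricSpace Y] : ENNReal :=
  ⨅ (Z : Type) (_ : MetricSpace Z) (f : X → Z) (g : Y → Z) (_ : Isometry f) (_ : Isometry g),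
    Metric.hausdorffEDist (Set.range f) (Set.range g)

end Pool.Agent.MP_1d6438_gt
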