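import Mathlib
import Pool.Agent.MP_1d6438_gt.Defs

set_option autoImplicit false

namespace Pool.Agent.MP_1d6438_gt

open Filter Topology

/-- Markers `inl n` (level `n + 1`) and centres `inr k` (level `1`). -/
def Sp (_a : ℕ → ℕ → Prop) : Type := ℕ ⊕ ℕ

def lev : ℕ ⊕ ℕ → ℕ
  | Sum.inl n => n + 1
  | Sum.inr _ => 1

open Classical in
noncomputable def del (a : ℕ → ℕ → Prop) : ℕ ⊕ ℕ → ℕ ⊕ ℕ → ℝ
  | Sum.inl n, Sum.inr k => if a k n then 1 / ((n : ℝ) + 2) else 0
  | Sum.inr k, Sum.inl n => if a k n then 1 / ((n : ℝ) + 2) else 0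
  | Sum.inl _, Sum.inl _ => 0
  | Sum.inr _, Sum.inr _ => 0

open Classical in
noncomputable def dd (a : ℕ → ℕ → Prop) (x y : ℕ ⊕ ℕ) : ℝ :=
  if x = y then 0 else (lev x : ℝ) + lev y - del a x y

lemma one_le_lev (x : ℕ ⊕ ℕ) : (1 : ℝ) ≤ lev x := by
  cases x <;> simp [lev]

lemma inv_le_one' (n : ℕ) : 1 / ((n : ℝ) + 2) ≤ 1 := by
  rw [div_le_one (by positivity)]
  have : (0 : ℝ) ≤ n := Nat.cast_nonneg n
  linarith

lemma del_nonneg (a : ℕ → ℕ → Prop) (x y : ℕ ⊕ ℕ) : 0 ≤ del a x y := by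
  cases x <;> cases y <;> simp only [del] <;> (try split_ifs) <;> positivity

lemma del_le_one (a : ℕ → ℕ → Prop) (x y : ℕ ⊕ ℕ) : del a x y ≤ 1 := by
  cases x <;> cases y <;> simp only [del] <;> (try split_ifs) <;>
    first | exact inv_le_one' _ | norm_num

lemma del_comm (a : ℕ → ℕ → Prop) (x y : ℕ ⊕ ℕ) : del a x y = del a y x := by
  cases x <;> cases y <;> simp only [del]

lemma dd_self (a : ℕ → ℕ → Prop) (x : ℕ ⊕ ℕ) : dd a x x = 0 := by simp [dd]

lemma dd_ne (a : ℕ → ℕ → Prop) {x y : ℕ ⊕ ℕ} (h : x ≠ y) :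
    dd a x y = (lev x : ℝ) + lev y - del a x y := by simp [dd, h]

lemma dd_comm (a : ℕ → ℕ → Prop) (x y : ℕ ⊕ ℕ) : dd a x y = dd a y x := by
  by_cases h : x = y
  · subst h; rfl
  · rw [dd_ne a h, dd_ne a (Ne.symm h), del_comm a x y]; ring

lemma dd_triangle (a : ℕ → ℕ → Prop) (x y z : ℕ ⊕ ℕ) : dd a x z ≤ dd a x y + dd a y z := by
  have h1 := one_le_lev x
  have h2 := one_le_lev y
  have h3 := one_le_lev z
  have h4 := del_nonneg a x z
  have h5 := del_le_one a x y
  have h6 := del_le_one a y z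
  have h7 := del_le_one a x z
  by_cases hxy : x = y
  · subst hxy; simp [dd_self]
  · by_cases hyz : y = z
    · subst hyz; simp [dd_self]
    · rw [dd_ne a hxy, dd_ne a hyz]
      by_cases hxz : x = z
      · subst hxz; rw [dd_self]; linarith
      · rw [dd_ne a hxz]; linarith

lemma dd_eq_zero (a : ℕ → ℕ → Prop) {x y : ℕ ⊕ ℕ} (h : dd a x y = 0) : x = y := by
  by_contra hxy
  rw [dd_ne a hxy] at h
  have h1 := one_le_lev x
  have h2 := one_le_lev y
  have h5 := del_le_one a x y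
  linarith

noncomputable instance (a : ℕ → ℕ → Prop) : MetricSpace (Sp a) where
  dist x y := dd a x y
  dist_self x := dd_self a x
  dist_comm x y := dd_comm a x y
  dist_triangle x y z := dd_triangle a x y z
  eq_of_dist_eq_zero h := dd_eq_zero a h

lemma dist_eq (a : ℕ → ℕ → Prop) (x y : Sp a) : dist x y = dd a x y := rfl

noncomputable def phi (n : ℕ) : ℝ := (n : ℝ) + 2 - 1 / ((n : ℝ) + 2)

lemma phi_lt (n : ℕ) : phi n < (n : ℝ) + 2 := by
  have : 0 < 1 / ((n : ℝ) + 2) := by positivity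
  unfold phi; linarith

lemma lt_phi (n : ℕ) : (n : ℝ) + 1 < phi n := by
  have : 1 / ((n : ℝ) + 2) < 1 := by
    rw [div_lt_one (by positivity)]
    have : (0 : ℝ) ≤ n := Nat.cast_nonneg n
    linarith
  unfold phi; linarith

lemma phi_ne_nat (n m : ℕ) : phi n ≠ (m : ℝ) := by
  intro h
  have h1 := phi_lt n
  have h2 := lt_phi n
  rw [h] at h1 h2
  have h3 : m < n + 2 := by exact_mod_cast h1
  have h4 : n + 1 < m := by exact_mod_cast h2
  omega

lemma phi_inj {n m : ℕ} (h : phi n = phi m) : n = m := by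
  have h1 := phi_lt n
  have h2 := lt_phi n
  have h3 := phi_lt m
  have h4 := lt_phi m
  have h5 : (n : ℝ) + 1 < m + 2 := by linarith
  have h6 : (m : ℝ) + 1 < n + 2 := by linarith
  have h7 : n + 1 < m + 2 := by exact_mod_cast h5
  have h8 : m + 1 < n + 2 := by exact_mod_cast h6
  omega

/-- every distance is a natural number or `phi n` for a marker-centre pair. -/
lemma dd_cases (a : ℕ → ℕ → Prop) (x y : ℕ ⊕ ℕ) :
    (∃ m : ℕ, dd a x y = m) ∨
      ∃ n k, a k n ∧ dd a x y = phi n ∧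
        ((x = Sum.inl n ∧ y = Sum.inr k) ∨ (x = Sum.inr k ∧ y = Sum.inl n)) := by
  unfold dd
  by_cases h : x = y
  · left; exact ⟨0, by simp [h]⟩
  · rw [if_neg h]
    rcases x with n | k <;> rcases y with n' | k'
    · left; exact ⟨lev (Sum.inl n) + lev (Sum.inl n'), by simp [del]⟩
    · by_cases ha : a k' n
      · right
        refine ⟨n, k', ha, ?_, Or.inl ⟨rfl, rfl⟩⟩
        simp only [del, lev, phi, if_pos ha]; push_cast; ring
      · left; exact ⟨lev (Sum.inl n) + lev (Sum.inr k'), by simp [del, ha]⟩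
    · by_cases ha : a k n'
      · right
        refine ⟨n', k, ha, ?_, Or.inr ⟨rfl, rfl⟩⟩
        simp only [del, lev, phi, if_pos ha]; push_cast; ring
      · left; exact ⟨lev (Sum.inr k) + lev (Sum.inl n'), by simp [del, ha]⟩
    · left; exact ⟨lev (Sum.inr k) + lev (Sum.inr k'), by simp [del]⟩

lemma closed_discrete_of_finite {S : Set ℝ} (h : ∀ N : ℕ, (S ∩ Set.Iio (N : ℝ)).Finite) :
    IsClosed S ∧ IsDiscrete S := by
  rw [isClosed_and_discrete_iff]
  intro x
  obtain ⟨N, hN⟩ := exists_nat_gt x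
  rw [Filter.disjoint_principal_right]
  have h1 : ((S ∩ Set.Iio (N : ℝ)) \ {x})ᶜ ∈ 𝓝 x := by
    apply IsOpen.mem_nhds
    · exact ((h N).subset Set.sdiff_subset).isClosed.isOpen_compl
    · simp
  have h2 : Set.Iio (N : ℝ) ∈ 𝓝 x := Iio_mem_nhds hN
  filter_upwards [mem_nhdsWithin_of_mem_nhds h1, mem_nhdsWithin_of_mem_nhds h2,
    self_mem_nhdsWithin] with y hy1 hy2 hy3
  intro hyS
  exact hy1 ⟨⟨hyS, hy2⟩, hy3⟩

lemma distSet_closed_discrete (a : ℕ → ℕ → Prop) :
    IsClosed (distSet (Sp a)) ∧ IsDiscrete (distSet (Sp a)) := by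
  apply closed_discrete_of_finite
  intro N
  have hfin : ((fun m : ℕ => (m : ℝ)) '' (Set.Iio N) ∪ phi '' (Set.Iio N)).Finite :=
    ((Set.finite_Iio N).image _).union ((Set.finite_Iio N).image _)
  refine hfin.subset ?_
  rintro r ⟨⟨x, y, rfl⟩, hr⟩
  rw [Set.mem_Iio, dist_eq] at hr
  rw [dist_eq]
  rcases dd_cases a x y with ⟨m, hm⟩ | ⟨n, k, -, hn, -⟩
  · left
    refine ⟨m, ?_, hm.symm⟩
    rw [hm] at hr
    exact_mod_cast hr
  · right
    refine ⟨n, ?_, hn.symm⟩
    rw [hn] at hr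
    have := lt_phi n
    have h2 : (n : ℝ) < N := by linarith
    exact_mod_cast h2

def aX (k n : ℕ) : Prop := n < k
def aY (k n : ℕ) : Prop := k = 0 ∨ n + 1 < k

lemma not_isometric : IsEmpty (Sp aX ≃ᵢ Sp aY) := by
  refine ⟨fun e => ?_⟩
  let y0 : Sp aY := Sum.inr 0
  have hy : ∀ n : ℕ, dist y0 (Sum.inl n : Sp aY) = phi n := by
    intro n
    rw [dist_eq]
    simp only [dd, y0, del, lev, phi, aY]
    simp
    ring
  have hx : ∀ n : ℕ, dd aX (e.symm y0) (e.symm (Sum.inl n)) = phi n := by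
    intro n
    rw [← dist_eq, e.symm.dist_eq, hy]
  rcases h0 : e.symm y0 with m | k
  · have h := hx (m + 1)
    rcases dd_cases aX (e.symm y0) (e.symm (Sum.inl (m + 1))) with ⟨j, hj⟩ | ⟨n, k, -, hn, h3⟩
    · exact phi_ne_nat _ _ (h.symm.trans hj)
    · have h4 : m + 1 = n := phi_inj (h.symm.trans hn)
      rw [h0] at h3
      rcases h3 with ⟨h5, -⟩ | ⟨h5, -⟩
      · have := Sum.inl_injective h5
        omega
      · exact Sum.inl_ne_inr h5
  · have h := hx k
    rcases dd_cases aX (e.symm y0) (e.symm (Sum.inl k)) with ⟨j, hj⟩ | ⟨n, k', ha, hn, h3⟩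
    · exact phi_ne_nat _ _ (h.symm.trans hj)
    · have h4 : k = n := phi_inj (h.symm.trans hn)
      rw [h0] at h3
      rcases h3 with ⟨h5, -⟩ | ⟨h5, -⟩
      · exact Sum.inr_ne_inl h5
      · have := Sum.inr_injective h5
        unfold aX at ha
        omega

def gg (N k : ℕ) : ℕ := if k < N then k + 1 else if k = N then 0 else k

lemma gg_inj (N : ℕ) : Function.Injective (gg N) := by
  intro k k' h
  unfold gg at h
  split_ifs at h <;> omega

lemma gg_surj (N : ℕ) : Function.Surjective (gg N) := by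
  intro j
  by_cases h0 : j = 0
  · exact ⟨N, by simp [gg, h0]⟩
  · by_cases h1 : j ≤ N
    · refine ⟨j - 1, ?_⟩
      unfold gg
      split_ifs <;> omega
    · refine ⟨j, ?_⟩
      unfold gg
      split_ifs <;> omega

lemma gg_a (N k n : ℕ) (h : n < N) : aY (gg N k) n ↔ aX k n := by
  unfold aX aY
  have h1 : (k < N ∧ gg N k = k + 1) ∨ (k = N ∧ gg N k = 0) ∨ (N < k ∧ gg N k = k) := by
    unfold gg
    split_ifs <;> omega
  omega

def ff (N : ℕ) : Sp aX → Sp aY := Sum.map id (gg N)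

lemma ff_inj (N : ℕ) : Function.Injective (ff N) :=
  Function.injective_id.sumMap (gg_inj N)

lemma ff_surj (N : ℕ) : Function.Surjective (ff N) :=
  Function.surjective_id.sumMap (gg_surj N)

lemma del_close (N k n : ℕ) :
    |del aX (Sum.inl n) (Sum.inr k) - del aY (Sum.inl n) (Sum.inr (gg N k))| ≤ 1 / ((N : ℝ) + 2) := by
  have hpos : 0 < 1 / ((N : ℝ) + 2) := by positivity
  simp only [del]
  by_cases h : n < N
  · by_cases h' : aX k n
    · rw [if_pos h', if_pos ((gg_a N k n h).2 h'), sub_self, abs_zero]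
      exact hpos.le
    · rw [if_neg h', if_neg (fun h'' => h' ((gg_a N k n h).1 h'')), sub_self, abs_zero]
      exact hpos.le
  · have h1 : 1 / ((n : ℝ) + 2) ≤ 1 / ((N : ℝ) + 2) := by
      apply one_div_le_one_div_of_le (by positivity)
      have : (N : ℝ) ≤ n := by exact_mod_cast (not_lt.mp h)
      linarith
    have h2 : 0 < 1 / ((n : ℝ) + 2) := by positivity
    rw [abs_le]
    constructor <;> split_ifs <;> linarith

lemma ff_distortion' (N : ℕ) (p q : ℕ ⊕ ℕ) :
    |dd aX p q - dd aY (Sum.map id (gg N) p) (Sum.map id (gg N) q)| ≤ 1 / ((N : ℝ) + 2) := by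
  have hpos : 0 < 1 / ((N : ℝ) + 2) := by positivity
  have hinj : Function.Injective (Sum.map (id : ℕ → ℕ) (gg N)) :=
    Function.injective_id.sumMap (gg_inj N)
  by_cases h : p = q
  · subst h; rw [dd_self, dd_self, sub_self, abs_zero]; exact hpos.le
  · rw [dd_ne aX h, dd_ne aY (fun h' => h (hinj h'))]
    rcases p with n | k <;> rcases q with n' | k'
    · simp only [Sum.map_inl, lev, del, id, sub_self, abs_zero]
      exact hpos.le
    · have := del_close N k' n
      simp only [Sum.map_inl, Sum.map_inr, lev, id]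
      rw [abs_sub_comm] at this
      convert this using 2
      ring
    · have := del_close N k n'
      simp only [Sum.map_inl, Sum.map_inr, lev, id]
      rw [abs_sub_comm, del_comm aX, del_comm aY] at this
      convert this using 2
      ring
    · simp only [Sum.map_inr, lev, del, sub_self, abs_zero]
      exact hpos.le

lemma ff_distortion (N : ℕ) (p q : Sp aX) :
    |dist p q - dist (ff N p) (ff N q)| ≤ 1 / ((N : ℝ) + 2) :=
  ff_distortion' N p q

lemma ghEDist_le {X Y : Type} [MetricSpace X] [MetricSpace Y] [Nonempty X] (f : X → Y)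
    (hf : Function.Surjective f) (ε : ℝ) (hε : 0 < ε)
    (H : ∀ p q, |dist p q - dist (f p) (f q)| ≤ 2 * ε) :
    ghEDist X Y ≤ ENNReal.ofReal ε := by
  let m : MetricSpace (X ⊕ Y) := Metric.glueMetricApprox (fun x : X => x) f ε hε H
  have h1 : Isometry (Sum.inl : X → X ⊕ Y) := Isometry.of_dist_eq fun _ _ => rfl
  have h2 : Isometry (Sum.inr : Y → X ⊕ Y) := Isometry.of_dist_eq fun _ _ => rfl
  have h3 : ∀ x : X, dist (Sum.inl x : X ⊕ Y) (Sum.inr (f x)) = ε := fun x =>
    Metric.glueDist_glued_points (fun x : X => x) f ε x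
  unfold ghEDist
  refine iInf_le_of_le (X ⊕ Y) (iInf_le_of_le m (iInf_le_of_le Sum.inl (iInf_le_of_le Sum.inr
    (iInf_le_of_le h1 (iInf_le_of_le h2 ?_)))))
  apply Metric.hausdorffEDist_le_of_mem_edist
  · rintro _ ⟨x, rfl⟩
    exact ⟨Sum.inr (f x), ⟨f x, rfl⟩, by rw [edist_dist, h3]⟩
  · rintro _ ⟨y, rfl⟩
    obtain ⟨x, rfl⟩ := hf y
    exact ⟨Sum.inl x, ⟨x, rfl⟩, by rw [edist_comm, edist_dist, h3]⟩

instance (a : ℕ → ℕ → Prop) : Nonempty (Sp a) := ⟨Sum.inl 0⟩

lemma ghEDist_zero : ghEDist (Sp aX) (Sp aY) = 0 := by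
  apply le_antisymm _ (by simp)
  apply ENNReal.le_of_forall_pos_le_add
  intro ε hε _
  obtain ⟨N, hN⟩ := exists_nat_one_div_lt (K := ℝ) (ε := ε) (by exact_mod_cast hε)
  have hε' : (0 : ℝ) < ε := by exact_mod_cast hε
  have h := ghEDist_le (ff N) (ff_surj N) ε hε' (fun p q => by
    have h1 := ff_distortion N p q
    have h2 : 1 / ((N : ℝ) + 2) ≤ 1 / ((N : ℝ) + 1) :=
      one_div_le_one_div_of_le (by positivity) (by linarith)
    linarith)
  simpa using h

end Pool.Agent.MP_1d6438_gt
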